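import Pool.Agent.H59.KA.Stmts
import Pool.Agent.H59.KP.EVJ
import Pool.Agent.H33.KG.BAS

/-!
# Board ka, block QMO: continuity in time of the covariance matrix and the mean
-/

set_option autoImplicit false

open MeasureTheory Set Filter Topology
open scoped ContDiff

namespace Pool.Agent.H33.KA

open Pool.Agent.H84 hiding cv mn
open Pool.Agent.H84.Sym Pool.Agent.H84.Sym.P2x Pool.Agent.H19.KL
open Pool.Agent.H73.KG Pool.Agent.H20.KH Pool.Agent.H78.KP Pool.Agent.H59.KA
open Pool.Agent.H59.KP Pool.Agent.H59.KG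

variable {E : Type} [NormedAddCommGroup E] [InnerProductSpace ℝ E]
    [FiniteDimensional ℝ E] [MeasurableSpace E] [BorelSpace E]

theorem qmo_sq (h1 : RGCStmt E) {F : ℝ → E → ℝ} (hF : RG F) (c : ℝ) :
    RG (fun s θ => (F s θ - c) ^ 2) ∧ ∀ (U : E → ℝ) (ι : Type) [Fintype ι]
      (b : OrthonormalBasis ι ℝ E) (s : ℝ) (θ : E), 0 < s →
      gen b U (fun s θ => (F s θ - c) ^ 2) s θ =
        2 * (F s θ - c) * gen b U F s θ + ∑ i, (D (b i) (F s) θ) ^ 2 := by
  set G : ℝ → E → ℝ := fun s θ => F s θ + -c with hG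
  have hGr : RG G := h1.2.1 F _ hF (h1.1 (-c))
  have e : (fun s θ => (F s θ - c) ^ 2) = fun s θ => G s θ * G s θ := by
    funext s θ
    rw [hG]
    ring
  rw [e]
  refine ⟨h1.2.2.1 _ _ hGr hGr, fun U ι _ b s θ hs => ?_⟩
  rw [(h1.2.2.2.2.1 G G U hGr hGr ι b s θ hs).2]
  have g1 : gen b U G s θ = gen b U F s θ := by
    rw [hG, (h1.2.2.2.2.1 F _ U hF (h1.1 (-c)) ι b s θ hs).1]
    have : gen b U (fun (_ : ℝ) (_ : E) => -c) s θ = 0 := by
      unfold gen D
      simp
    rw [this, add_zero]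
  have g2 : ∀ i, D (b i) (G s) θ = D (b i) (F s) θ := by
    intro i
    unfold D
    have : G s = fun θ => F s θ + -c := rfl
    rw [this, fderiv_add_const]
  rw [g1]
  simp only [g2]
  have g3 : G s θ = F s θ - c := by rw [hG]; ring
  rw [g3]
  have g4 : ∑ i, D (b i) (F s) θ * D (b i) (F s) θ = ∑ i, (D (b i) (F s) θ) ^ 2 :=
    Finset.sum_congr rfl fun i _ => by ring
  rw [g4]
  ring

theorem qmo_evol (hRGC : RGCStmt E) (hRGP : RGPStmt E) (hBAY : BAYStmt E) (hDYN : DYNStmt E)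
    {U : E → ℝ} {t : ℝ} (hU : PP U t) {G : ℝ → E → ℝ} (hG : RG G) (h0 : G 0 0 = 0)
    {ι : Type} [Fintype ι] (b : OrthonormalBasis ι ℝ E) (β : ℝ)
    (hle : ∀ r θ, 0 < r → gen b U G r θ ≤ β) {s : ℝ} (hs : 0 < s) :
    EX U s (G s) ≤ β * s := by
  obtain ⟨hder, hcont, hz⟩ := hDYN U t hU G hG
  have hle' : ∀ r ∈ Ioo 0 s, EX U r (gen b U G r) ≤ β := by
    intro r hr
    obtain ⟨-, -, -, hconst, hmono, -, -⟩ := hBAY U t hU r hr.1.le
    have h2 := hmono _ (fun _ => β) (trp_gen hRGC hRGP hU hG hr.1 b) (GC.const β)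
      fun θ => hle r θ hr.1
    rwa [hconst] at h2
  have hsub : Icc (0:ℝ) s ⊆ Ici 0 := fun x hx => hx.1
  obtain ⟨c, hc, hc2⟩ := exists_hasDerivAt_eq_slope (fun r => EX U r (G r))
    (fun r => EX U r (gen b U G r)) hs (hcont.mono hsub) fun r hr => hder ι b r hr.1
  have h1 := hle' c hc
  rw [hc2, sub_zero, div_le_iff₀ hs] at h1
  have h2 : EX U 0 (G 0) = 0 := by rw [hz, h0]
  have h4 : EX U s (G s) - EX U 0 (G 0) ≤ β * s := h1
  rw [h2] at h4
  linarith

/-- module QMO -/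
theorem qmo_thm (hPWB : PWBStmt E) (hRGC : RGCStmt E) (hRGP : RGPStmt E) (hBAY : BAYStmt E)
    (hDYN : DYNStmt E) (hAAG : AAGStmt E) (hMQB : MQBStmt E) : QMOStmt E := by
  intro U t hU ι _ b
  classical
  obtain ⟨hP1, hP2, hP3⟩ := hPWB U t hU
  have ht : 0 < t := by
    obtain ⟨⟨_, hpot⟩, -⟩ := id hU
    exact hpot.pos
  set n : ℝ := (Fintype.card ι : ℝ) with hn
  have hn0 : 0 ≤ n := Nat.cast_nonneg _
  have hsum : ∀ (f : ι → ℝ) (β : ℝ), (∀ i, f i ≤ β) → ∑ i, f i ≤ n * β := by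
    intro f β hf
    calc ∑ i, f i ≤ ∑ _i : ι, β := Finset.sum_le_sum fun i _ => hf i
      _ = n * β := by rw [Finset.sum_const, nsmul_eq_mul, Finset.card_univ]
  -- bounds for the moments
  have hcm : ∀ r θ, 0 ≤ r → ∀ i j, |cm b (pw U r θ) i j| ≤ 1 / t := by
    intro r θ hr i j
    refine ((hMQB _ _ (hP1 r θ hr) ι b i j i).1).trans ?_
    exact one_div_le_one_div_of_le ht (by linarith)
  have ht3 : ∀ r θ, 0 ≤ r → ∀ k i j, (t3 (pw U r θ) (b k) (b i) (b j)) ^ 2 ≤ 5 / t ^ 3 := by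
    intro r θ hr k i j
    refine ((hMQB _ _ (hP1 r θ hr) ι b i j k).2.1).trans ?_
    refine div_le_div_of_nonneg_left (by norm_num) (by positivity) ?_
    exact pow_le_pow_left₀ ht.le (by linarith) 3
  have hcm0 : ∀ i j, |cm b U i j| ≤ 1 / t := fun i j => (hMQB U t hU ι b i j i).1
  -- the covariance matrix
  set A : ι → ι → ℝ → E → ℝ := fun i j r θ => cm b (pw U r θ) i j with hA
  have hAr : ∀ i j, RG (A i j) := fun i j => (hAAG U t hU ι b i j).1
  have hsq : ∀ i j, RG (fun r θ => (A i j r θ - cm b U i j) ^ 2) := fun i j =>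
    (qmo_sq hRGC (hAr i j) (cm b U i j)).1
  have hrow : ∀ i, RG (fun r θ => ∑ j, (A i j r θ - cm b U i j) ^ 2) := fun i =>
    evj_sum hRGC Finset.univ fun j => hsq i j
  set G : ℝ → E → ℝ := fun r θ => ∑ i, ∑ j, (A i j r θ - cm b U i j) ^ 2 with hG
  have hGr : RG G := evj_sum hRGC Finset.univ fun i => hrow i
  -- the mean
  set M : ι → ℝ → E → ℝ := fun i r θ => pm U r θ (li (b i)) with hM
  have hli : ∀ i, GC (li (b i)) := fun i => BAS_li (b i)
  have hMr : ∀ i, RG (M i) := fun i => (hRGP U t hU (li (b i)) (hli i)).1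
  set H : ℝ → E → ℝ := fun r θ => ∑ i, (M i r θ - mn U (b i)) ^ 2 with hH
  have hHsq : ∀ i, RG (fun r θ => (M i r θ - mn U (b i)) ^ 2) := fun i =>
    (qmo_sq hRGC (hMr i) (mn U (b i))).1
  have hHr : RG H := evj_sum hRGC Finset.univ fun i => hHsq i
  have hMeq : ∀ r θ, 0 ≤ r → ∀ i, M i r θ = mn (pw U r θ) (b i) := by
    intro r θ hr i
    exact (hP2 r θ hr (li (b i))).symm
  have hHm : ∀ r θ, 0 ≤ r → H r θ = md b U r θ := by
    intro r θ hr
    refine Finset.sum_congr rfl fun i _ => ?_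
    rw [hMeq r θ hr i]
  refine ⟨hGr, hRGC.2.2.2.2.2.2 H _ hHr fun r θ hr => hHm r θ hr, fun r hr => ⟨?_, ?_⟩⟩
  · refine qmo_evol hRGC hRGP hBAY hDYN hU hGr ?_ b _ ?_ hr
    · show ∑ i, ∑ j, (cm b (pw U 0 0) i j - cm b U i j) ^ 2 = 0
      rw [hP3]
      simp
    · intro r θ hr
      have e1 : gen b U G r θ = ∑ i, ∑ j, (2 * (A i j r θ - cm b U i j) *
          -((cm b (pw U r θ)) ^ 2) i j + ∑ k, (t3 (pw U r θ) (b k) (b i) (b j)) ^ 2) := by
        rw [hG, evj_gsum hRGC U b Finset.univ (fun i => hrow i) hr θ]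
        refine Finset.sum_congr rfl fun i _ => ?_
        rw [evj_gsum hRGC U b Finset.univ (fun j => hsq i j) hr θ]
        refine Finset.sum_congr rfl fun j _ => ?_
        rw [(qmo_sq hRGC (hAr i j) (cm b U i j)).2 U ι b r θ hr]
        have g2 : gen b U (A i j) r θ = -((cm b (pw U r θ)) ^ 2) i j :=
          (hAAG U t hU ι b i j).2.1 r θ hr
        have g3 : ∀ k, D (b k) (A i j r) θ = t3 (pw U r θ) (b k) (b i) (b j) := fun k =>
          (hAAG U t hU ι b i j).2.2 r θ (b k) hr.le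
        rw [g2]
        simp only [g3]
      rw [e1]
      have h2 : ∀ i j, 2 * (A i j r θ - cm b U i j) *
          -((cm b (pw U r θ)) ^ 2) i j + ∑ k, (t3 (pw U r θ) (b k) (b i) (b j)) ^ 2 ≤
          9 * n / t ^ 3 := by
        intro i j
        have a1 : |A i j r θ - cm b U i j| ≤ 2 / t := by
          calc |A i j r θ - cm b U i j| ≤ |A i j r θ| + |cm b U i j| := abs_sub _ _
            _ ≤ 1 / t + 1 / t := add_le_add (hcm r θ hr.le i j) (hcm0 i j)
            _ = 2 / t := by ring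
        have a2 : |((cm b (pw U r θ)) ^ 2) i j| ≤ n * (1 / t * (1 / t)) := by
          rw [pow_two, Matrix.mul_apply]
          refine (Finset.abs_sum_le_sum_abs _ _).trans (hsum _ _ fun k => ?_)
          rw [abs_mul]
          exact mul_le_mul (hcm r θ hr.le i k) (hcm r θ hr.le k j) (abs_nonneg _) (by positivity)
        have a3 : ∑ k, (t3 (pw U r θ) (b k) (b i) (b j)) ^ 2 ≤ n * (5 / t ^ 3) :=
          hsum _ _ fun k => ht3 r θ hr.le k i j
        have a4 : 2 * (A i j r θ - cm b U i j) * -((cm b (pw U r θ)) ^ 2) i j ≤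
            2 * (2 / t) * (n * (1 / t * (1 / t))) := by
          refine (le_abs_self _).trans ?_
          rw [abs_mul, abs_mul, abs_neg, abs_two]
          exact mul_le_mul (mul_le_mul_of_nonneg_left a1 (by norm_num)) a2 (abs_nonneg _)
            (by positivity)
        have a5 : 2 * (2 / t) * (n * (1 / t * (1 / t))) + n * (5 / t ^ 3) = 9 * n / t ^ 3 := by
          field_simp
          ring
        linarith
      refine (hsum _ _ fun i => hsum _ _ fun j => h2 i j).trans (le_of_eq ?_)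
      ring
  · have e0 : EX U r (fun θ => md b U r θ) = EX U r (H r) := by
      congr 1
      funext θ
      exact (hHm r θ hr.le).symm
    rw [e0]
    refine qmo_evol hRGC hRGP hBAY hDYN hU hHr ?_ b _ ?_ hr
    · rw [hHm 0 0 le_rfl]
      unfold md
      rw [hP3]
      simp
    · intro r θ hr
      have e1 : gen b U H r θ = ∑ i, ∑ k, (cm b (pw U r θ) i k) ^ 2 := by
        rw [hH, evj_gsum hRGC U b Finset.univ (fun i => hHsq i) hr θ]
        refine Finset.sum_congr rfl fun i _ => ?_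
        rw [(qmo_sq hRGC (hMr i) (mn U (b i))).2 U ι b r θ hr]
        have g2 : gen b U (M i) r θ = 0 := (hRGP U t hU (li (b i)) (hli i)).2.2 ι b r θ hr
        have g3 : ∀ k, D (b k) (M i r) θ = cm b (pw U r θ) i k := fun k =>
          ((hRGP U t hU (li (b i)) (hli i)).2.1 r θ (b k) hr.le).2
        rw [g2]
        simp only [g3, mul_zero, zero_add]
      rw [e1]
      refine (hsum _ _ fun i => hsum _ _ fun k => ?_).trans (le_of_eq ?_) (b := n * (n * (1 / t) ^ 2))
      · rw [← sq_abs]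
        exact pow_le_pow_left₀ (abs_nonneg _) (hcm r θ hr.le i k) 2
      · ring

end Pool.Agent.H33.KA
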