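import Pool.Agent.H9.KA.Stmts

/-!
# Slopes: the rate of the positions on the zone
-/

set_option autoImplicit false

namespace Pool.KA

open Finset Real
open Pool.Agent.H49.Ent Pool.Agent.H32.Dense Pool.STK

/-- **Slopes**: the rate of the positions on the zone, counted from its beginning. -/
theorem slp_thm (hT : TRCStmt) (hG : GROStmt) : SLPStmt := by
  intro m
  obtain ⟨C₁, hC₁, h₁⟩ := hT m
  obtain ⟨C₂, hC₂, h₂⟩ := hG m
  refine ⟨max C₁ C₂, le_max_of_le_left hC₁, ?_⟩
  intro J w x hx μ lam τ η e F hJ hwx hx1 hμ hV he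
  have hC : 0 ≤ max C₁ C₂ := le_max_of_le_left hC₁
  have hJ0 : (0 : ℝ) < J := by exact_mod_cast hJ
  have hx0 : (0 : ℝ) < x := by exact_mod_cast hx1
  have hxJ : (x : ℝ) ≤ J := by exact_mod_cast hx
  have hwx' : (w : ℝ) ≤ x := by exact_mod_cast hwx
  have hw0 : (0 : ℝ) ≤ w := Nat.cast_nonneg w
  refine ⟨fun h => ?_, fun h => ?_⟩
  · have hmono : F.V w ≤ F.V x + max C₁ C₂ := by
      have := ((h₂ J F).2.1 w x hwx).1
      linarith [le_max_right C₁ C₂]
    have e1 : ((J : ℝ) - x) * (μ * F.V x / J - lam) - ((J : ℝ) - w) * (μ * F.V w / J - lam) =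
        ((J : ℝ) - x) / J * (μ * (F.V x - F.V w)) +
          (lam - μ * F.V w / J) * ((x : ℝ) - w) := by
      field_simp
      ring
    have e2 : -(μ * max C₁ C₂) ≤ ((J : ℝ) - x) / J * (μ * (F.V x - F.V w)) := by
      have h3 : 0 ≤ ((J : ℝ) - x) / J := div_nonneg (by linarith) hJ0.le
      have h4 : ((J : ℝ) - x) / J ≤ 1 := by
        rw [div_le_one hJ0]
        linarith
      have h5 : -(μ * max C₁ C₂) ≤ μ * (F.V x - F.V w) := by
        have : μ * (-max C₁ C₂) ≤ μ * (F.V x - F.V w) :=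
          mul_le_mul_of_nonneg_left (by linarith) hμ
        linarith
      have h6 : 0 ≤ μ * max C₁ C₂ := mul_nonneg hμ hC
      calc -(μ * max C₁ C₂) ≤ ((J : ℝ) - x) / J * (-(μ * max C₁ C₂)) := by
            nlinarith
        _ ≤ _ := mul_le_mul_of_nonneg_left h5 h3
    unfold Fam.G at h
    nlinarith [e1, e2, h, hC]
  · have hE := h₁ J F x hx e he
    have hj := hE.2
    have a1 := (hj x le_rfl).1
    have a2 := (hj w hwx).1
    have a3 := (hj w hwx).2
    set V' := (F.trc x hx).V with hV'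
    have hEC : 0 ≤ e + C₁ := (abs_nonneg _).trans a1
    have hEC' : e + C₁ ≤ e + max C₁ C₂ := by linarith [le_max_left C₁ C₂]
    rw [abs_le] at a1 a2
    have hVV : F.V x - F.V w = (-CH F.p (F.X x) F.W) + CH F.p (F.X w) F.W +
        m * (((x : ℝ) - w) * Real.log 2) := by
      unfold Fam.V
      ring
    have b1 : F.V x - F.V w - 2 * (e + C₁) ≤ V' x - V' w := by
      rw [hVV]
      nlinarith [a1.1, a2.2]
    have hr0 : 0 ≤ ((x : ℝ) - w) / x := div_nonneg (by linarith) hx0.le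
    have hr1 : ((x : ℝ) - w) / x ≤ 1 := by
      rw [div_le_one hx0]
      linarith
    have b2 : ((x : ℝ) - w) * (μ * F.V w / J) - μ * (e + C₁) ≤ ((x : ℝ) - w) * (μ * V' w / x) := by
      have c1 : ((x : ℝ) - w) * (μ * V' w / x) = ((x : ℝ) - w) / x * (μ * V' w) := by
        field_simp
      have c2 : ((x : ℝ) - w) / x * (μ * (F.V w - (e + C₁))) ≤ ((x : ℝ) - w) / x * (μ * V' w) :=
        mul_le_mul_of_nonneg_left (mul_le_mul_of_nonneg_left a3 hμ) hr0
      have c3 : ((x : ℝ) - w) / x * (μ * (e + C₁)) ≤ μ * (e + C₁) := by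
        have := mul_le_mul_of_nonneg_right hr1 (mul_nonneg hμ hEC)
        linarith
      have c4 : ((x : ℝ) - w) * (μ * F.V w / J) ≤ ((x : ℝ) - w) / x * (μ * F.V w) := by
        have : μ * F.V w / J ≤ μ * F.V w / x :=
          div_le_div_of_nonneg_left (mul_nonneg hμ hV) hx0 hxJ
        calc ((x : ℝ) - w) * (μ * F.V w / J) ≤ ((x : ℝ) - w) * (μ * F.V w / x) :=
              mul_le_mul_of_nonneg_left this (by linarith)
          _ = ((x : ℝ) - w) / x * (μ * F.V w) := by ring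
      rw [c1]
      have c5 : ((x : ℝ) - w) / x * (μ * (F.V w - (e + C₁))) =
          ((x : ℝ) - w) / x * (μ * F.V w) - ((x : ℝ) - w) / x * (μ * (e + C₁)) := by ring
      linarith
    have h' : V' x - V' w + ((x : ℝ) - w) * (μ * V' w / x - (lam + τ)) ≤ η * J := h
    have h6 : (2 + μ) * (e + C₁) ≤ (2 + μ) * (e + max C₁ C₂) :=
      mul_le_mul_of_nonneg_left hEC' (by linarith)
    nlinarith [b1, b2, h', h6]

end Pool.KA
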