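import Pool.Agent.H9.KA.Stmts
import Pool.Agent.H58.STK.Base

/-!
# Windows cost
-/

set_option autoImplicit false

namespace Pool.KA

open Finset Real
open Pool.Agent.H49.Ent Pool.Agent.H32.Dense Pool.STK

namespace WCO

/-- `H(X | W) = H(Y | W) + H(X | Y, W)` if `Y` is a function of `X`. -/
lemma chain_det {Ω S T U : Type} [Fintype Ω] {p : Ω → ℝ} (hp : ∀ ω, 0 ≤ p ω) (X : Ω → S)
    (Y : Ω → T) (W : Ω → U) (h : Det p X Y) :
    CH p X W = CH p Y W + CH p X (fun ω => (Y ω, W ω)) := by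
  rw [← CH_chain hp]
  refine CH_congr hp ?_ ?_ (fun _ _ _ _ h => h) (fun _ _ _ _ h => h)
  · intro ω ω' a b hh
    have h1 : X ω = X ω' := (Prod.ext_iff.1 hh).1
    exact Prod.ext h1 (h ω ω' a b h1)
  · intro ω ω' _ _ hh
    exact (Prod.ext_iff.1 (Prod.ext_iff.1 hh).1).1

end WCO

/-- **Windows cost**: the first `g` digits of the positions and the directions contain much less
than the full entropy. -/
theorem wco_thm (hW : WINStmt) (hI : WI2Stmt) (hM : MASStmt) : WCOStmt := by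
  intro m
  obtain ⟨C, hC, hC2⟩ := hI m
  refine ⟨2 * C, by positivity, ?_⟩
  intro J w g μ lam σ η e F hJ hgw hwJ hσ hη hμ hTm h1 h2
  have hgJ : g < J := lt_of_le_of_lt hgw hwJ
  have hp := F.isLaw.nonneg
  have hJ0 : (0 : ℝ) < J := by exact_mod_cast hJ
  have hwJ' : (w : ℝ) < J := by exact_mod_cast hwJ
  have hgJ' : (g : ℝ) < J := by exact_mod_cast hgJ
  have hgw' : (g : ℝ) ≤ w := by exact_mod_cast hgw
  have hg0 : (0 : ℝ) ≤ g := Nat.cast_nonneg g
  obtain ⟨-, hV⟩ := hW m J F g hgJ.le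
  have hmas := hM m J g w μ lam σ η F (F.win g) hgw hwJ.le hgJ hη h1 h2
  -- the violations of the window family
  have v1 : (F.win g).V (w - g) = CH F.p (F.D (J - g)) (F.c g) -
      CH F.p (F.X w) (fun ω => (F.T ω, F.c g ω)) - m * (((J : ℝ) - w) * Real.log 2) := by
    have := hV (w - g) (by omega)
    have e1 : w - g + g = w := by omega
    rw [e1] at this
    have e2 : (((w - g : ℕ) : ℝ) + g) = w := by exact_mod_cast e1
    rw [e2] at this
    exact this
  have v2 : (F.win g).V (J - g) = CH F.p (F.D (J - g)) (F.c g) -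
      CH F.p (F.X J) (fun ω => (F.T ω, F.c g ω)) := by
    have := hV (J - g) (by omega)
    have e1 : J - g + g = J := by omega
    rw [e1] at this
    have e2 : (((J - g : ℕ) : ℝ) + g) = J := by exact_mod_cast e1
    rw [e2] at this
    rw [this]
    ring
  have v3 : F.V w = CH F.p (F.D J) F.Z - CH F.p (F.X w) F.W -
      m * (((J : ℝ) - w) * Real.log 2) := rfl
  have v4 : F.V J = CH F.p (F.D J) F.Z - CH F.p (F.X J) F.W := by
    unfold Fam.V
    ring
  -- the coarse position is a function of the fine one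
  have dX : ∀ i j : ℕ, i ≤ j → Det F.p (F.X j) (F.X i) := fun i j hij ω ω' _ _ h =>
    B58.fl_fine hij h
  have c1 := WCO.chain_det hp (F.X w) (F.X g) F.W (dX g w hgw)
  have c2 := (hC2 J F g hgJ.le _ (F.X w)).1
  have c3 := (hC2 J F g hgJ.le _ (F.D (J - g))).2 e hTm (by
    intro ω ω' _ _ h
    have : F.d ω = F.d ω' := (Prod.ext_iff.1 h).2
    show fl (J - g) (F.d ω) = fl (J - g) (F.d ω')
    rw [this])
  have heC : 0 ≤ e + C := (abs_nonneg _).trans c3
  rw [abs_le] at c2 c3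
  -- the bracket
  have c4 : CH F.p (fun ω => (F.X g ω, F.D (J - g) ω)) F.W =
      CH F.p (F.X g) F.W + CH F.p (F.D (J - g)) (fun ω => (F.X g ω, F.W ω)) := by
    have h3 : CH F.p (fun ω => (F.X g ω, F.D (J - g) ω)) F.W =
        CH F.p (fun ω => (F.D (J - g) ω, F.X g ω)) F.W := by
      refine CH_congr hp ?_ ?_ (fun _ _ _ _ h => h) (fun _ _ _ _ h => h)
      · intro ω ω' _ _ hh
        have := Prod.ext_iff.1 (Prod.ext_iff.1 hh).1
        exact Prod.ext this.2 this.1
      · intro ω ω' _ _ hh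
        have := Prod.ext_iff.1 (Prod.ext_iff.1 hh).1
        exact Prod.ext this.2 this.1
    rw [h3]
    exact CH_chain hp (F.D (J - g)) (F.X g) F.W
  have a1 : F.V w - (F.win g).V (w - g) ≤
      (CH F.p (F.D J) F.Z - CH F.p (fun ω => (F.X g ω, F.D (J - g) ω)) F.W) + e + 2 * C := by
    rw [v1, v3, c4]
    linarith [c2.1, c2.2, c3.1, c3.2]
  -- the positions in the zone
  have a2 : 0 ≤ (F.V w - (F.win g).V (w - g)) - (F.V J - (F.win g).V (J - g)) := by
    have d1 := WCO.chain_det hp (F.X J) (F.X w) F.W (dX w J hwJ.le)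
    have d2 := WCO.chain_det hp (F.X J) (F.X w) (fun ω => (F.T ω, F.c g ω)) (dX w J hwJ.le)
    have d3 : CH F.p (F.X J) (fun ω => (F.X w ω, (F.T ω, F.c g ω))) ≤
        CH F.p (F.X J) (fun ω => (F.X w ω, F.W ω)) := by
      refine CH_mono_cond hp ?_
      intro ω ω' _ _ hh
      have h3 := Prod.ext_iff.1 hh
      have h4 : F.T ω = F.T ω' ∧ F.c g ω = F.c g ω' := by
        simpa using (Prod.ext_iff.1 h3.2)
      have h5 : F.Z ω = F.Z ω' := (Prod.ext_iff.1 h4.2).2
      exact Prod.ext h3.1 (Prod.ext h4.1 h5)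
    rw [v1, v2, v3, v4]
    linarith
  set a : ℝ := F.V w - (F.win g).V (w - g) with ha
  set b : ℝ := F.V J - (F.win g).V (J - g) with hb
  have hgσ : 0 ≤ g * σ := mul_nonneg hg0 hσ
  have a3 : 0 ≤ μ * ((J : ℝ) - w) / ((J : ℝ) - g) * (a - g * F.V w / J) + 2 * η * J := by
    linarith
  have hJw : 0 < (J : ℝ) - w := by linarith
  have hJg : 0 < (J : ℝ) - g := by linarith
  have hk : 0 < μ * ((J : ℝ) - w) := mul_pos hμ hJw
  have a4 : g * F.V w / J ≤ a + 2 * η * J * J / (μ * ((J : ℝ) - w)) := by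
    have e1 : g * F.V w / J - a ≤ 2 * η * J * ((J : ℝ) - g) / (μ * ((J : ℝ) - w)) := by
      rw [le_div_iff₀ hk]
      have e2 : μ * ((J : ℝ) - w) / ((J : ℝ) - g) * (a - g * F.V w / J) * ((J : ℝ) - g) =
          μ * ((J : ℝ) - w) * (a - g * F.V w / J) := by
        field_simp
      have e3 := mul_nonneg a3 hJg.le
      rw [add_mul, e2] at e3
      linarith
    have e4 : 2 * η * J * ((J : ℝ) - g) / (μ * ((J : ℝ) - w)) ≤
        2 * η * J * J / (μ * ((J : ℝ) - w)) := by
      refine div_le_div_of_nonneg_right ?_ hk.le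
      exact mul_le_mul_of_nonneg_left (by linarith) (by positivity)
    linarith
  have a5 : 2 * η * J * J / (μ * ((J : ℝ) - w)) ≤
      (2 * η * J + 2 * (e + 2 * C)) * J / (μ * ((J : ℝ) - w)) := by
    refine div_le_div_of_nonneg_right ?_ hk.le
    refine mul_le_mul_of_nonneg_right ?_ hJ0.le
    linarith
  linarith

end Pool.KA
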